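import Pool.Agent.MWH.StmtsA
import Pool.Agent.MWS.StmtsA

/-!
# MWH row JPX: the join prime criterion (MP_23468a_al)
-/

set_option autoImplicit false

namespace Pool.Agent.MWH.H69

open Pool.Agent.Helper14_MV Pool.Agent.Helper2_MV Pool.Agent.MVO Pool.Agent.MWL Pool.Agent.MWS
open Pool.Agent.MWH

theorem bef_append (l m : List ℕ) (x y : ℕ) :
    Bef (l ++ m) x y ↔ Bef l x y ∧ Bef m x y ∧ (y ∈ l → x ∉ m) := by
  constructor
  · intro h
    refine ⟨?_, ?_, ?_⟩
    · intro P Q hl hx
      exact h P (Q ++ m) (by rw [hl]; simp) (List.mem_append_left _ hx)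
    · intro P Q hm hx
      exact h (l ++ P) Q (by rw [hm]; simp) hx
    · intro hy hx
      obtain ⟨P, Q, hl⟩ := List.append_of_mem hy
      exact h P (Q ++ m) (by rw [hl]; simp) (List.mem_append_right _ hx)
  · rintro ⟨h1, h2, h3⟩ P Q hlm hx
    rcases List.append_eq_append_iff.1 hlm with ⟨a', ha1, ha2⟩ | ⟨c', hc1, hc2⟩
    · exact h2 a' Q ha2 hx
    · cases c' with
      | nil =>
        exact h2 [] Q (by simpa using hc2.symm) hx
      | cons c c'' =>
        rw [List.cons_append] at hc2
        obtain ⟨hc3, hc4⟩ := List.cons.inj hc2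
        rw [hc4] at hx
        rw [← hc3] at hc1
        rcases List.mem_append.1 hx with hx | hx
        · exact h1 P c'' hc1 hx
        · exact h3 (by rw [hc1]; simp) hx

theorem bef_of_not_mem_fst {l : List ℕ} {x y : ℕ} (h : x ∉ l) : Bef l x y := by
  intro P Q hl hx
  exact h (by rw [hl]; simp [hx])

theorem bef_of_not_mem_snd {l : List ℕ} {x y : ℕ} (h : y ∉ l) : Bef l x y := by
  intro P Q hl _
  exact h (by rw [hl]; simp)

theorem not_bef_both {l : List ℕ} {x y : ℕ} (hxy : x ≠ y) (hx : x ∈ l) (hy : y ∈ l)
    (h1 : Bef l x y) (h2 : Bef l y x) : False := by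
  obtain ⟨P, Q, hl⟩ := List.append_of_mem hx
  have hyQ : y ∉ Q := h2 P Q hl
  have hyP : y ∈ P := by
    rw [hl] at hy
    rcases List.mem_append.1 hy with h | h
    · exact h
    · rcases List.mem_cons.1 h with h | h
      · exact absurd h.symm hxy
      · exact absurd h hyQ
  obtain ⟨P1, P2, hP⟩ := List.append_of_mem hyP
  have := h1 P1 (P2 ++ x :: Q) (by rw [hl, hP]; simp)
  exact this (by simp)

theorem le_deg {k j : ℕ} (hj : j ≤ k) (x : ℕ → ℕ) : x j ≤ deg k x := by
  unfold deg
  exact Finset.single_le_sum (f := x) (fun _ _ => Nat.zero_le _)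
    (Finset.mem_range.2 (by omega))

theorem deg_sh {k : ℕ} {x y : ℕ → ℕ} (h : Sh k x y) (hx : 2 ≤ deg k x) : 2 ≤ deg k y := by
  by_cases hex : ∃ t ≤ k, 2 ≤ y t
  · obtain ⟨t, ht, h2⟩ := hex
    exact le_trans h2 (le_deg ht y)
  · have he : deg k x = deg k y := by
      unfold deg
      apply Finset.sum_congr rfl
      intro t ht
      have ht' : t ≤ k := by
        rw [Finset.mem_range] at ht
        omega
      rcases h t ht' with h1 | ⟨_, h1⟩
      · exact h1
      · exact absurd ⟨t, ht', h1⟩ hex
    omega

/-- normal form of a family with the shape of `W` -/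
theorem to_W (hNFE : NfeStmt) (hOKW : OkwStmt) {β : FIC} (hβ : BaseH β) {k : ℕ} {a b : ℕ → ℕ}
    {i : ℕ} (hV : Vd k a b i) {s : Stt} (hs : Vs a b i s) {C : ℕ → List ℕ} (h01 : Two01 k C)
    (h0 : ∀ j ≤ k, (C j).count 0 = a j)
    (h1 : ∀ j ≤ k, (C j).count 1 = b j ∨ (2 ≤ (C j).count 1 ∧ 2 ≤ b j))
    (hf1 : Bef (C i) 0 1 ↔ s = Stt.xy) (hf2 : Bef (C i) 1 0 ↔ s = Stt.yx) :
    RR β (asm k C) (asm k (W a b i s)) := by
  obtain ⟨hok, hw01, hcnt, hmem, hb1, hb2⟩ := hOKW k a b i s hV hs
  have hns0 : NS k 0 := fun h => by omega
  have hns1 : NS k 1 := fun h => by omega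
  have hokC : OkB k C := by
    refine ⟨?_, ?_⟩
    · intro j hj c hc
      rcases h01 j hj c hc with rfl | rfl
      · exact hns0
      · exact hns1
    · intro j hj c hc
      rcases h01 j hj c hc with rfl | rfl
      · have h2 := hV.da
        have h3 : deg k (fun j => (C j).count 0) = deg k a := by
          unfold deg
          apply Finset.sum_congr rfl
          intro t ht
          rw [Finset.mem_range] at ht
          exact h0 t (by omega)
        omega
      · apply deg_sh (x := b) _ hV.db
        intro t ht
        rcases h1 t ht with h | ⟨h, h'⟩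
        · exact Or.inl h.symm
        · exact Or.inr ⟨h', h⟩
  apply hNFE β hβ k C (W a b i s) hokC hok
  · intro c _ j hj
    show (C j).count c = (W a b i s j).count c ∨ (2 ≤ (C j).count c ∧ 2 ≤ (W a b i s j).count c)
    by_cases hc0 : c = 0
    · subst hc0
      left
      rw [h0 j hj, (hcnt j).1]
    · by_cases hc1 : c = 1
      · subst hc1
        rw [(hcnt j).2]
        exact h1 j hj
      · left
        rw [List.count_eq_zero_of_not_mem, List.count_eq_zero_of_not_mem]
        · intro h
          rcases hmem j c h with h | h
          · exact hc0 h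
          · exact hc1 h
        · intro h
          rcases h01 j hj c h with h | h
          · exact hc0 h
          · exact hc1 h
  · intro i' hi' x y hxy hx hy _
    have hi'i : 0 ∈ C i' → 1 ∈ C i' → i' = i := by
      intro hm0 hm1
      by_contra hne
      have h3 : a i' ≠ 0 := by
        have := h0 i' hi'
        have h5 : 0 < (C i').count 0 := List.count_pos_iff.2 hm0
        omega
      have h4 : b i' ≠ 0 := by
        have h5 : 0 < (C i').count 1 := List.count_pos_iff.2 hm1
        rcases h1 i' hi' with h | ⟨h, h'⟩ <;> omega
      rcases hV.un i' hi' hne with h | h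
      · exact h3 h
      · exact h4 h
    rcases h01 i' hi' x hx with rfl | rfl
    · rcases h01 i' hi' y hy with rfl | rfl
      · exact absurd rfl hxy
      · have := hi'i hx hy
        subst this
        rw [hf1, hb1]
    · rcases h01 i' hi' y hy with rfl | rfl
      · have := hi'i hy hx
        subst this
        rw [hf2, hb2]
      · exact absurd rfl hxy

theorem len_two {l : List ℕ} (h01 : ∀ c ∈ l, c = 0 ∨ c = 1) (h0 : l.count 0 = 1)
    (h1 : l.count 1 = 1) : l = [0, 1] ∨ l = [1, 0] := by
  cases l with
  | nil => simp at h0
  | cons c l =>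
    have hl : ∀ d ∈ l, d = 0 ∨ d = 1 := fun d hd => h01 d (List.mem_cons_of_mem _ hd)
    rcases h01 c (by simp) with rfl | rfl
    · left
      rw [List.count_cons_self] at h0
      rw [List.count_cons_of_ne (by omega)] at h1
      have h2 : 0 ∉ l := by
        intro h
        have : 0 < l.count 0 := List.count_pos_iff.2 h
        omega
      cases l with
      | nil => simp at h1
      | cons d l =>
        have hd : d = 1 := by
          rcases hl d (by simp) with rfl | rfl
          · exact absurd (by simp) h2
          · rfl
        subst hd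
        rw [List.count_cons_self] at h1
        have h3 : 1 ∉ l := by
          intro h
          have : 0 < l.count 1 := List.count_pos_iff.2 h
          omega
        have h4 : l = [] := by
          rw [List.eq_nil_iff_forall_not_mem]
          intro e he
          rcases hl e (List.mem_cons_of_mem _ he) with rfl | rfl
          · exact h2 (List.mem_cons_of_mem _ he)
          · exact h3 he
        rw [h4]
    · right
      rw [List.count_cons_self] at h1
      rw [List.count_cons_of_ne (by omega)] at h0
      have h2 : 1 ∉ l := by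
        intro h
        have : 0 < l.count 1 := List.count_pos_iff.2 h
        omega
      cases l with
      | nil => simp at h0
      | cons d l =>
        have hd : d = 0 := by
          rcases hl d (by simp) with rfl | rfl
          · rfl
          · exact absurd (by simp) h2
        subst hd
        rw [List.count_cons_self] at h0
        have h3 : 0 ∉ l := by
          intro h
          have : 0 < l.count 0 := List.count_pos_iff.2 h
          omega
        have h4 : l = [] := by
          rw [List.eq_nil_iff_forall_not_mem]
          intro e he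
          rcases hl e (List.mem_cons_of_mem _ he) with rfl | rfl
          · exact h3 he
          · exact h2 (List.mem_cons_of_mem _ he)
        rw [h4]

theorem bef01 : Bef [0, 1] 0 1 := by
  have h := (bef_append [0] [1] 0 1).2
  exact h ⟨bef_of_not_mem_snd (by simp), bef_of_not_mem_fst (by simp), fun h => by simp at h⟩

theorem bef10 : Bef [1, 0] 1 0 := by
  have h := (bef_append [1] [0] 1 0).2
  exact h ⟨bef_of_not_mem_snd (by simp), bef_of_not_mem_fst (by simp), fun h => by simp at h⟩

open Classical in
theorem jpx (hONE : MVO.OneStmt) (hTRN : MWL.TrnStmt) (hABS : MWL.AbsStmt) (hKEY : MWL.KeyStmt)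
    (hLRN : MWS.LrnStmt) (hNDN : MWS.NdnStmt) (hJPI : MWS.JpiStmt) (hNFE : NfeStmt)
    (hOKW : OkwStmt) : JpxStmt := by
  intro β hβ k a b i F hV hF s s' hcase hab
  have hns0 : NS k 0 := fun h => by omega
  have hns1 : NS k 1 := fun h => by omega
  have hs : Vs a b i s := by
    rintro rfl
    rcases hcase with ⟨_, _, h, _⟩ | ⟨_, h, _⟩ | ⟨_, h, _⟩ <;> simp at h
  have hs' : Vs a b i s' := by
    rintro rfl
    rcases hcase with ⟨_, _, _, h⟩ | ⟨h, _, _⟩ | ⟨h, _, _⟩
    · simp at h
    · exact Or.inr (hF i hV.ik h)
    · exact Or.inr (hF i hV.ik h)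
  obtain ⟨hok, hw01, hcnt, hmem, hb1, hb2⟩ := hOKW k a b i s hV hs
  obtain ⟨hok', hw01', hcnt', hmem', hb1', hb2'⟩ := hOKW k a b i s' hV hs'
  refine hJPI β hβ.toApI k (W a b i s) (W a b i s')
    (fun B => (∀ j ≤ k, (B j).count 0 = a j) ∧ (∀ j ≤ k, ¬ F j → (B j).count 1 = b j) ∧
      (s = Stt.xy → Bef (B i) 0 1) ∧ (s = Stt.yx → Bef (B i) 1 0)) hok hok' hw01 ?_ ?_ ?_ ?_
  · exact ⟨fun j _ => (hcnt j).1, fun j _ _ => (hcnt j).2, hb1.2, hb2.2⟩
  · rintro ⟨_, _, h3, h4⟩
    rcases hcase with ⟨_, _, h, h'⟩ | ⟨_, h, h'⟩ | ⟨_, h, h'⟩
    · have := hb1'.1 (h3 h)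
      rw [h'] at this
      simp at this
    · have := hb1'.1 (h3 h)
      rw [h'] at this
      simp at this
    · have := hb2'.1 (h4 h)
      rw [h'] at this
      simp at this
  · rintro B B' hBB ⟨h1, h2, h3, h4⟩
    refine ⟨fun j hj => by rw [← hBB j hj]; exact h1 j hj,
      fun j hj hj' => by rw [← hBB j hj]; exact h2 j hj hj', fun h => ?_, fun h => ?_⟩
    · rw [← hBB i hV.ik]
      exact h3 h
    · rw [← hBB i hV.ik]
      exact h4 h
  · intro θ hθ hNC hnTr B B' hB hB' hB01 hB01' hr hA
    obtain ⟨hA0, hA1, hA2, hA3⟩ := hA
    obtain ⟨hab0, hab1⟩ := hab θ hθ hNC hnTr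
    have hLR := hLRN β θ hβ.toBaseR hθ
    have hND := hNDN β θ hβ.toApI hθ hNC
    -- the letter 0
    have hL0 : L1 θ k (ty B 0) (ty B' 0) := hONE.1 θ k B B' 0 hns0 hB.ok hB'.ok hr
    have hL1 : L1 θ k (ty B 1) (ty B' 1) := hONE.1 θ k B B' 1 hns1 hB.ok hB'.ok hr
    have hA0' : ∀ j ≤ k, (B' j).count 0 = a j := by
      intro j hj
      have h1 : ¬ Ab 1 (FC.ofFIC θ) k (ty B 0) j := by
        intro h
        exact hab0 j hj (((hTRN 1 (FC.ofFIC θ) k (ty B 0) j).2.2.1 a hA0).1 h)
      have h2 := hKEY 1 (FC.ofFIC θ) hLR hND k (ty B 0) (ty B' 0) hL0 j hj h1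
      have h3 := hA0 j hj
      unfold ty at h2
      omega
    -- the letter 1
    have hA1' : ∀ j ≤ k, ¬ F j → (B' j).count 1 = b j := by
      intro j hj hFj
      have h1 : ¬ Ab 1 (FC.ofFIC θ) k (ty B 1) j := by
        intro h
        have h2 := (hTRN 1 (FC.ofFIC θ) k (ty B 1) j).2.1 (fun t => if F t then 2 else 0) h
        have h3 : (FC.ofFIC θ).R k (fun t => ty B 1 t + if F t then 2 else 0) b := by
          apply (hABS 1 (FC.ofFIC θ) hLR k _).2
          intro t ht
          by_cases hFt : F t
          · right
            refine ⟨⟨?_, t, le_refl t, ?_⟩, ⟨?_, t, le_refl t, hF t ht hFt⟩, Nat.modEq_one⟩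
            · simp only [if_pos hFt]
              omega
            · simp only [if_pos hFt]
              omega
            · have := hF t ht hFt
              omega
          · left
            simp only [if_neg hFt]
            exact hA1 t ht hFt
        have h4 := ((hTRN 1 (FC.ofFIC θ) k _ j).1 b h3).1 h2
        exact hab1 j hj hFj h4
      have h2 := hKEY 1 (FC.ofFIC θ) hLR hND k (ty B 1) (ty B' 1) hL1 j hj h1
      have h3 := hA1 j hj hFj
      unfold ty at h2
      omega
    have hm0 : 0 ∈ B i := by
      have h1 := hA0 i hV.ik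
      have h2 := hV.ai
      exact List.count_pos_iff.1 (by omega)
    have hm0' : 0 ∈ B' i := by
      have h1 := hA0' i hV.ik
      have h2 := hV.ai
      exact List.count_pos_iff.1 (by omega)
    refine ⟨hA0', hA1', ?_, ?_⟩
    · intro hxy
      by_contra hnb
      -- insert at the end
      have hins := rr_ins' θ (fun _ => []) (fun j => if F j then [1, 1] else []) hB.ok hB'.ok hr
      simp only [List.nil_append] at hins
      have hfam : ∀ C : ℕ → List ℕ, Two01 k C → (∀ j ≤ k, (C j).count 0 = a j) →
          (∀ j ≤ k, ¬ F j → (C j).count 1 = b j) → ∀ t : Stt, Vs a b i t →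
          (Bef (C i ++ if F i then [1, 1] else []) 0 1 ↔ t = Stt.xy) →
          (Bef (C i ++ if F i then [1, 1] else []) 1 0 ↔ t = Stt.yx) →
          RR θ (asm k (fun j => C j ++ if F j then [1, 1] else [])) (asm k (W a b i t)) := by
        intro C hC01 hC0 hC1 t ht hf1 hf2
        apply hθ
        apply to_W hNFE hOKW hβ hV ht
        · intro j hj c hc
          rcases List.mem_append.1 hc with hc | hc
          · exact hC01 j hj c hc
          · by_cases hFj : F j
            · rw [if_pos hFj] at hc
              right
              simpa using hc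
            · rw [if_neg hFj] at hc
              simp at hc
        · intro j hj
          have h1 := hC0 j hj
          by_cases hFj : F j
          · simp [hFj, h1]
          · simp [hFj, h1]
        · intro j hj
          by_cases hFj : F j
          · right
            refine ⟨?_, hF j hj hFj⟩
            simp [hFj]
          · left
            have h1 := hC1 j hj hFj
            simp [hFj, h1]
        · exact hf1
        · exact hf2
      rcases hcase with ⟨hai, hbi, _, hyx⟩ | ⟨hFi, _, hov⟩ | ⟨_, hcon, _⟩
      · -- case (i)
        have hFi : ¬ F i := by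
          intro h
          have := hF i hV.ik h
          omega
        have hc0 := hA0 i hV.ik
        have hc1 := hA1 i hV.ik hFi
        have hc0' := hA0' i hV.ik
        have hc1' := hA1' i hV.ik hFi
        have hBi : B' i = [1, 0] := by
          rcases len_two (hB01' i hV.ik) (by omega) (by omega) with h | h
          · exfalso
            apply hnb
            rw [h]
            exact bef01
          · exact h
        have hm1 : 1 ∈ B i := List.count_pos_iff.1 (by omega)
        have e1 := hfam B hB01 hA0 hA1 Stt.xy (by intro h; simp at h)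
          (by
            rw [if_neg hFi, List.append_nil]
            exact ⟨fun _ => rfl, fun _ => hA2 hxy⟩)
          (by
            rw [if_neg hFi, List.append_nil]
            exact ⟨fun h => (not_bef_both (by omega) hm0 hm1 (hA2 hxy) h).elim,
              fun h => by simp at h⟩)
        have e2 := hfam B' hB01' hA0' hA1' Stt.yx (by intro h; simp at h)
          (by
            rw [if_neg hFi, List.append_nil]
            exact ⟨fun h => absurd h hnb, fun h => by simp at h⟩)
          (by
            rw [if_neg hFi, List.append_nil, hBi]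
            exact ⟨fun _ => rfl, fun _ => bef10⟩)
        apply hnTr
        rw [hxy, hyx]
        exact θ.trans (RR.symm e1) (θ.trans hins e2)
      · -- case (ii)
        have hvov : Vs a b i Stt.ov := fun _ => Or.inr (hF i hV.ik hFi)
        have hb11 : Bef [1, 1] 0 1 := bef_of_not_mem_fst (by simp)
        have e1 := hfam B hB01 hA0 hA1 Stt.xy (by intro h; simp at h)
          (by
            rw [if_pos hFi, bef_append]
            exact ⟨fun _ => rfl, fun _ => ⟨hA2 hxy, hb11, fun _ => by simp⟩⟩)
          (by
            rw [if_pos hFi, bef_append]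
            exact ⟨fun h => absurd (by simp) (h.2.2 hm0), fun h => by simp at h⟩)
        have e2 := hfam B' hB01' hA0' hA1' Stt.ov hvov
          (by
            rw [if_pos hFi, bef_append]
            exact ⟨fun h => absurd h.1 hnb, fun h => by simp at h⟩)
          (by
            rw [if_pos hFi, bef_append]
            exact ⟨fun h => absurd (by simp) (h.2.2 hm0'), fun h => by simp at h⟩)
        apply hnTr
        rw [hxy, hov]
        exact θ.trans (RR.symm e1) (θ.trans hins e2)
      · rw [hxy] at hcon
        simp at hcon
    · intro hyx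
      by_contra hnb
      -- insert in front
      have hins := rr_ins' θ (fun j => if F j then [1, 1] else []) (fun _ => []) hB.ok hB'.ok hr
      simp only [List.append_nil] at hins
      have hfam : ∀ C : ℕ → List ℕ, Two01 k C → (∀ j ≤ k, (C j).count 0 = a j) →
          (∀ j ≤ k, ¬ F j → (C j).count 1 = b j) → ∀ t : Stt, Vs a b i t →
          (Bef ((if F i then [1, 1] else []) ++ C i) 0 1 ↔ t = Stt.xy) →
          (Bef ((if F i then [1, 1] else []) ++ C i) 1 0 ↔ t = Stt.yx) →
          RR θ (asm k (fun j => (if F j then [1, 1] else []) ++ C j)) (asm k (W a b i t)) := by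
        intro C hC01 hC0 hC1 t ht hf1 hf2
        apply hθ
        apply to_W hNFE hOKW hβ hV ht
        · intro j hj c hc
          rcases List.mem_append.1 hc with hc | hc
          · by_cases hFj : F j
            · rw [if_pos hFj] at hc
              right
              simpa using hc
            · rw [if_neg hFj] at hc
              simp at hc
          · exact hC01 j hj c hc
        · intro j hj
          have h1 := hC0 j hj
          by_cases hFj : F j
          · simp [hFj, h1]
          · simp [hFj, h1]
        · intro j hj
          by_cases hFj : F j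
          · right
            refine ⟨?_, hF j hj hFj⟩
            simp [hFj]
          · left
            have h1 := hC1 j hj hFj
            simp [hFj, h1]
        · exact hf1
        · exact hf2
      rcases hcase with ⟨_, _, hcon, _⟩ | ⟨_, hcon, _⟩ | ⟨hFi, _, hov⟩
      · rw [hyx] at hcon
        simp at hcon
      · rw [hyx] at hcon
        simp at hcon
      · have hvov : Vs a b i Stt.ov := fun _ => Or.inr (hF i hV.ik hFi)
        have hb11 : Bef [1, 1] 1 0 := bef_of_not_mem_snd (by simp)
        have e1 := hfam B hB01 hA0 hA1 Stt.yx (by intro h; simp at h)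
          (by
            rw [if_pos hFi, bef_append]
            exact ⟨fun h => absurd hm0 (h.2.2 (by simp)), fun h => by simp at h⟩)
          (by
            rw [if_pos hFi, bef_append]
            exact ⟨fun _ => rfl, fun _ => ⟨hb11, hA3 hyx, fun h => by simp at h⟩⟩)
        have e2 := hfam B' hB01' hA0' hA1' Stt.ov hvov
          (by
            rw [if_pos hFi, bef_append]
            exact ⟨fun h => absurd hm0' (h.2.2 (by simp)), fun h => by simp at h⟩)
          (by
            rw [if_pos hFi, bef_append]
            exact ⟨fun h => absurd h.2.1 hnb, fun h => by simp at h⟩)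
        apply hnTr
        rw [hyx, hov]
        exact θ.trans (RR.symm e1) (θ.trans hins e2)

end Pool.Agent.MWH.H69
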